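import Pool.Agent.W601.SQ.Stm

/-! Project SQ (helper601): reflexivity. -/

set_option autoImplicit false

open scoped Classical Cardinal
open Filter Topology

namespace Pool.Agent.W101.SQ

open Pool.Agent.W601.SQ

noncomputable section

/-- Evaluation at a point is continuous on the dual. -/
theorem cont_eval {A : Type} [CommGroup A] [TopologicalSpace A] [IsTopologicalGroup A] (a : A) :
    Continuous (fun χ : PontryaginDual A => χ a) := by
  have h1 : Continuous (fun χ : A →ₜ* Circle => (χ : C(A, Circle))) :=
    (ContinuousMonoidHom.isInducing_toContinuousMap A Circle).continuous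
  exact (continuous_eval_const (F := C(A, Circle)) a).comp h1

/-- The evaluation character. -/
def ev {A : Type} [CommGroup A] [TopologicalSpace A] [IsTopologicalGroup A] (a : A) :
    PontryaginDual (PontryaginDual A) :=
  ({ toFun := fun χ => χ a
     map_one' := rfl
     map_mul' := fun _ _ => rfl
     continuous_toFun := cont_eval a } : PontryaginDual A →ₜ* Circle)

theorem ev_apply {A : Type} [CommGroup A] [TopologicalSpace A] [IsTopologicalGroup A] (a : A)
    (χ : PontryaginDual A) : ev a χ = χ a := rfl

/-- The coordinate characters. -/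
def crd (G : Subgroup (ℝ → Circle)) (β : ℝ) : PontryaginDual ↥G :=
  ({ toFun := fun x => (x : ℝ → Circle) β
     map_one' := rfl
     map_mul' := fun _ _ => rfl
     continuous_toFun := (continuous_apply β).comp continuous_subtype_val } : ↥G →ₜ* Circle)

theorem crd_apply (G : Subgroup (ℝ → Circle)) (β : ℝ) (x : ↥G) :
    crd G β x = (x : ℝ → Circle) β := rfl

theorem ext_dual {A : Type} [CommGroup A] [TopologicalSpace A] [IsTopologicalGroup A]
    (χ ψ : PontryaginDual A) (h : ∀ a, χ a = ψ a) : χ = ψ := DFunLike.ext _ _ h

theorem ref : S_ALG → S_PWG → S_CD → S_DD → S_REF := by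
  intro _ hP hC hD θ hθ
  have hcont : Continuous (fun g : ↥(GG θ) => ev g) :=
    hP (PontryaginDual ↥(GG θ)) (hC θ hθ) ↥(GG θ) (fun g => ev g)
      (fun χ => by
        have : Continuous (fun g : ↥(GG θ) => χ g) := map_continuous χ
        exact this)
  have hinj : Function.Injective (fun g : ↥(GG θ) => ev g) := by
    intro g g' h
    apply Subtype.ext
    funext β
    have := DFunLike.congr_fun h (crd (GG θ) β)
    exact this
  have hsurj : Function.Surjective (fun g : ↥(GG θ) => ev g) := by
    intro Ψ
    obtain ⟨g, hg⟩ := hD θ hθ Ψ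
    exact ⟨g, ext_dual _ _ fun χ => (hg χ).symm⟩
  let F : ↥(GG θ) →* PontryaginDual (PontryaginDual ↥(GG θ)) :=
    { toFun := fun g => ev g
      map_one' := ext_dual _ _ fun χ => map_one χ
      map_mul' := fun g g' => ext_dual _ _ fun χ => map_mul χ g g' }
  let e := MulEquiv.ofBijective F ⟨hinj, hsurj⟩
  have he : ∀ Ψ, ev (e.symm Ψ) = Ψ := fun Ψ => e.apply_symm_apply Ψ
  refine ⟨{ e with
    continuous_toFun := hcont
    continuous_invFun := ?_ }, fun g χ => rfl⟩
  refine continuous_induced_rng.2 ?_
  refine continuous_pi fun β => ?_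
  have h := cont_eval (A := PontryaginDual ↥(GG θ)) (crd (GG θ) β)
  refine h.congr fun Ψ => ?_
  have := DFunLike.congr_fun (he Ψ) (crd (GG θ) β)
  exact this.symm

end

end Pool.Agent.W101.SQ
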